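import Pool.Agent.L7h31.CR.Stm

/-!
# Project CR, parts PL and PLI: half-spaces
-/

set_option autoImplicit false

namespace Pool.Agent.L7h15.CR

open Pool.Agent.L7h31.CR

variable {ι : Type} [Fintype ι]

theorem sq_nonneg' (p q : Hyp ι) : 0 ≤ sq p q := by
  unfold Pool.Agent.L7h31.CR.sq
  positivity

theorem sq_pos {p q : Hyp ι} (h : p ≠ q) : 0 < sq p q := by
  rcases (sq_nonneg' p q).lt_or_eq with h1 | h1
  · exact h1
  · exfalso
    apply h
    unfold Pool.Agent.L7h31.CR.sq at h1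
    have h2 : 0 ≤ ∑ i, (p.x i - q.x i) ^ 2 := Finset.sum_nonneg fun i _ => sq_nonneg _
    have h3 : (p.y - q.y) ^ 2 = 0 := by
      have := sq_nonneg (p.y - q.y)
      linarith
    have h4 : ∑ i, (p.x i - q.x i) ^ 2 = 0 := by linarith
    rw [Finset.sum_eq_zero_iff_of_nonneg fun i _ => sq_nonneg _] at h4
    ext i
    · have := h4 i (Finset.mem_univ _)
      rw [sq_eq_zero_iff, sub_eq_zero] at this
      exact this
    · rw [sq_eq_zero_iff, sub_eq_zero] at h3
      exact h3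

theorem hdist_le_iff (z p q : Hyp ι) : hdist z p ≤ hdist z q ↔ sq z p * q.y ≤ sq z q * p.y := by
  have hz := z.pos
  have hp := p.pos
  have hq := q.pos
  have a1 : 0 < √(z.y * p.y) := Real.sqrt_pos.2 (by positivity)
  have a2 : 0 < √(z.y * q.y) := Real.sqrt_pos.2 (by positivity)
  unfold hdist
  rw [mul_le_mul_iff_right₀ (by norm_num : (0 : ℝ) < 2), Real.arsinh_le_arsinh,
    div_le_div_iff₀ (by positivity) (by positivity)]
  have e1 : √(sq z p) * (2 * √(z.y * q.y)) = 2 * √(sq z p * (z.y * q.y)) := by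
    rw [Real.sqrt_mul (sq_nonneg' _ _)]
    ring
  have e2 : √(sq z q) * (2 * √(z.y * p.y)) = 2 * √(sq z q * (z.y * p.y)) := by
    rw [Real.sqrt_mul (sq_nonneg' _ _)]
    ring
  rw [e1, e2, mul_le_mul_iff_right₀ (by norm_num : (0 : ℝ) < 2),
    Real.sqrt_le_sqrt_iff (mul_nonneg (sq_nonneg' _ _) (by positivity))]
  have e3 : sq z p * (z.y * q.y) = z.y * (sq z p * q.y) := by ring
  have e4 : sq z q * (z.y * p.y) = z.y * (sq z q * p.y) := by ring
  rw [e3, e4, mul_le_mul_iff_right₀ hz]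

theorem of_kappa (α : ℝ) (β : ι → ℝ) (γ κ : ℝ) (hκ : 0 < κ) (p q : Hyp ι)
    (h : ∀ z, sq z p * q.y - sq z q * p.y = κ * Phi α β γ z) :
    (∀ z, z ∈ HS p q ↔ Phi α β γ z ≤ 0) ∧ (∀ z, z ∈ HS q p ↔ 0 ≤ Phi α β γ z) ∧
    (∀ z, hdist z p = hdist z q ↔ Phi α β γ z = 0) := by
  have h1 : ∀ z, hdist z p ≤ hdist z q ↔ Phi α β γ z ≤ 0 := by
    intro z
    rw [hdist_le_iff, ← sub_nonpos, h]
    constructor
    · intro h2
      by_contra h3
      push Not at h3
      have := mul_pos hκ h3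
      linarith
    · intro h2
      exact mul_nonpos_of_nonneg_of_nonpos hκ.le h2
  have h2 : ∀ z, hdist z q ≤ hdist z p ↔ 0 ≤ Phi α β γ z := by
    intro z
    rw [hdist_le_iff, ← sub_nonneg, h]
    constructor
    · intro h2
      by_contra h3
      push Not at h3
      have := mul_neg_of_pos_of_neg hκ h3
      linarith
    · intro h2
      exact mul_nonneg hκ.le h2
  refine ⟨h1, h2, fun z => ?_⟩
  rw [le_antisymm_iff, h1, h2, ← le_antisymm_iff]

theorem sq_expand (z p : Hyp ι) : sq z p = (∑ i, z.x i ^ 2) + z.y ^ 2 - 2 * ∑ i, p.x i * z.x i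
    - 2 * (p.y * z.y) + ((∑ i, p.x i ^ 2) + p.y ^ 2) := by
  unfold Pool.Agent.L7h31.CR.sq
  have : ∑ i, (z.x i - p.x i) ^ 2 = (∑ i, z.x i ^ 2) - 2 * (∑ i, p.x i * z.x i) + ∑ i, p.x i ^ 2 := by
    rw [Finset.mul_sum, ← Finset.sum_sub_distrib, ← Finset.sum_add_distrib]
    exact Finset.sum_congr rfl fun i _ => by ring
  rw [this]
  ring

theorem s_PLI : S_PLI := by
  intro ι _ p q hpq
  have key : ∀ z, sq z p * q.y - sq z q * p.y = 1 * Phi (q.y - p.y)
      (fun i => -2 * (q.y * p.x i - p.y * q.x i))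
      (((∑ i, p.x i ^ 2) + p.y ^ 2) * q.y - ((∑ i, q.x i ^ 2) + q.y ^ 2) * p.y) z := by
    intro z
    rw [sq_expand, sq_expand]
    unfold Phi
    have : ∑ i, -2 * (q.y * p.x i - p.y * q.x i) * z.x i =
        -2 * q.y * (∑ i, p.x i * z.x i) + 2 * p.y * ∑ i, q.x i * z.x i := by
      rw [Finset.mul_sum, Finset.mul_sum, ← Finset.sum_add_distrib]
      exact Finset.sum_congr rfl fun i _ => by ring
    rw [this]
    ring
  obtain ⟨h1, h2, h3⟩ := of_kappa _ _ _ 1 one_pos p q key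
  refine ⟨_, _, _, ?_, ?_, ?_, h1, h2, h3⟩
  · by_contra h4
    push Not at h4
    obtain ⟨h5, h6⟩ := h4
    apply hpq
    have h7 : q.y = p.y := by linarith
    ext i
    · have h8 := congrFun h6 i
      simp only [Pi.zero_apply] at h8
      rw [h7] at h8
      have hp := p.pos
      have h9 : p.y * (p.x i - q.x i) = 0 := by linarith
      rcases mul_eq_zero.1 h9 with h10 | h10
      · exact absurd h10 hp.ne'
      · linarith
    · exact h7.symm
  · have h4 := key p
    rw [one_mul] at h4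
    rw [← h4]
    have h5 : sq p p = 0 := by simp [Pool.Agent.L7h31.CR.sq]
    rw [h5]
    have h6 := mul_pos (sq_pos hpq) p.pos
    linarith
  · have h4 := key q
    rw [one_mul] at h4
    rw [← h4]
    have h5 : sq q q = 0 := by simp [Pool.Agent.L7h31.CR.sq]
    rw [h5]
    have h6 := mul_pos (sq_pos hpq.symm) q.pos
    linarith

theorem pos_case (α : ℝ) (β : ι → ℝ) (γ : ℝ) (hα : 0 < α) (z0 : Hyp ι) (h0 : Phi α β γ z0 = 0) :
    ∃ (κ : ℝ) (p q : Hyp ι), 0 < κ ∧ p ≠ q ∧
      ∀ z, sq z p * q.y - sq z q * p.y = κ * Phi α β γ z := by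
  have hα' : α ≠ 0 := hα.ne'
  set w : ι → ℝ := fun i => -β i / (2 * α) with hw
  set ρ : ℝ := (∑ i, w i ^ 2) - γ / α with hρ
  have hPhi : ∀ z, Phi α β γ z = α * ((∑ i, (z.x i - w i) ^ 2) + z.y ^ 2 - ρ) := by
    intro z
    have h1 : ∑ i, (z.x i - w i) ^ 2 =
        (∑ i, z.x i ^ 2) + (∑ i, β i * z.x i) / α + ∑ i, w i ^ 2 := by
      rw [Finset.sum_div, ← Finset.sum_add_distrib, ← Finset.sum_add_distrib]
      refine Finset.sum_congr rfl fun i _ => ?_
      rw [hw]
      field_simp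
      ring
    rw [h1, hρ]
    unfold Phi
    field_simp
    ring
  have hpos : 0 < ρ := by
    have h1 := hPhi z0
    rw [h0] at h1
    have h2 : (∑ i, (z0.x i - w i) ^ 2) + z0.y ^ 2 - ρ = 0 := by
      rcases mul_eq_zero.1 h1.symm with h3 | h3
      · exact absurd h3 hα'
      · exact h3
    have h3 : 0 ≤ ∑ i, (z0.x i - w i) ^ 2 := Finset.sum_nonneg fun i _ => sq_nonneg _
    have h4 := z0.pos
    have h5 : 0 < z0.y ^ 2 := by positivity
    linarith
  have hs : 0 < √ρ := Real.sqrt_pos.2 hpos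
  have hs2 : √ρ ^ 2 = ρ := Real.sq_sqrt hpos.le
  refine ⟨3 * √ρ / (2 * α), ⟨w, √ρ / 2, by positivity⟩, ⟨w, 2 * √ρ, by positivity⟩, by positivity,
    ?_, fun z => ?_⟩
  · intro h
    have := congrArg Hyp.y h
    simp only at this
    linarith
  · rw [hPhi z]
    unfold Pool.Agent.L7h31.CR.sq
    simp only
    generalize ∑ i, (z.x i - w i) ^ 2 = S
    generalize √ρ = s at *
    rw [← hs2]
    field_simp
    ring

theorem s_PL : S_PL := by
  intro ι _ α β γ hab h0
  obtain ⟨z0, h0⟩ := h0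
  rcases lt_trichotomy α 0 with h | h | h
  · obtain ⟨κ, p, q, hκ, hpq, hk⟩ := pos_case (-α) (-β) (-γ) (by linarith) z0 (by
      have : Phi (-α) (-β) (-γ) z0 = - Phi α β γ z0 := by
        unfold Phi
        simp only [Pi.neg_apply, neg_mul, Finset.sum_neg_distrib]
        ring
      rw [this, h0, neg_zero])
    obtain ⟨h1, -, h3⟩ := of_kappa α β γ κ hκ q p (fun z => by
      have h4 := hk z
      have : Phi (-α) (-β) (-γ) z = - Phi α β γ z := by
        unfold Phi
        simp only [Pi.neg_apply, neg_mul, Finset.sum_neg_distrib]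
        ring
      rw [this] at h4
      linarith)
    exact ⟨q, p, hpq.symm, h1, h3⟩
  · subst h
    have hb : β ≠ 0 := by
      rcases hab with h | h
      · exact absurd rfl h
      · exact h
    obtain ⟨h1, -, h3⟩ := of_kappa 0 β γ 4 (by norm_num) (⟨fun i => z0.x i - β i, 1, one_pos⟩ : Hyp ι)
      ⟨fun i => z0.x i + β i, 1, one_pos⟩ (fun z => by
        unfold Pool.Agent.L7h31.CR.sq Phi
        unfold Phi at h0
        simp only
        have e1 : ∑ i, (z.x i - (z0.x i - β i)) ^ 2 - ∑ i, (z.x i - (z0.x i + β i)) ^ 2 =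
            4 * (∑ i, β i * z.x i) - 4 * ∑ i, β i * z0.x i := by
          rw [Finset.mul_sum, Finset.mul_sum, ← Finset.sum_sub_distrib, ← Finset.sum_sub_distrib]
          exact Finset.sum_congr rfl fun i _ => by ring
        linarith)
    refine ⟨_, _, ?_, h1, h3⟩
    intro h
    apply hb
    funext i
    have := congrFun (congrArg Hyp.x h) i
    simp only at this
    simp only [Pi.zero_apply]
    linarith
  · obtain ⟨κ, p, q, hκ, hpq, hk⟩ := pos_case α β γ h z0 h0
    obtain ⟨h1, -, h3⟩ := of_kappa α β γ κ hκ p q hk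
    exact ⟨p, q, hpq, h1, h3⟩

end Pool.Agent.L7h15.CR
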