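import Pool.Agent.L7h31.CR.Stm

/-!
# Project CR, parts COV, LEV, INT, DIS, EQT
-/

set_option autoImplicit false

namespace Pool.Agent.L7h15.CR

open Pool.Agent.L7h31.CR
open Topology Filter

variable {k : ℕ}

theorem gg_lt (hG : S_GAP) (A : Par k) (x : ZMod (k + 1) → ℝ) {l l' : ℤ} (h : l < l') :
    GG A l x < GG A l' x := by
  have hm : StrictMono fun l : ℤ => GG A l x := by
    apply strictMono_int_of_lt_succ
    intro l
    obtain ⟨-, h1, h2, h3⟩ := hG k A (l + 1)
    rw [add_sub_cancel_right] at h2 h3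
    have h4 := h1 x
    have h5 := h2 x
    linarith
  exact hm h

theorem s_LEV : S_GAP → S_LEV := by
  intro hG k A l l' a a' h
  obtain ⟨z, ⟨-, -, h1⟩, ⟨-, h2, -⟩⟩ := h
  by_contra hlt
  push Not at hlt
  have := gg_lt hG A z.x (show l < l' - 1 by omega)
  linarith

/-- the map to the coordinates is inducing -/
theorem cont_path {ι : Type} (x : ℝ → ι → ℝ) (y : ℝ → ℝ) (hy : ∀ t, 0 < y t) (hx : Continuous x)
    (hyc : Continuous y) : Continuous fun t => (⟨x t, y t, hy t⟩ : Hyp ι) := by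
  rw [continuous_induced_rng]
  exact hx.prodMk hyc

theorem near {ι : Type} (T : Set (Hyp ι)) (φ : ℝ → Hyp ι) (hφ : Continuous φ)
    (h0 : φ 0 ∈ interior T) : ∃ ε : ℝ, 0 < ε ∧ ∀ t, |t| ≤ ε → φ t ∈ T := by
  have h1 : φ ⁻¹' interior T ∈ 𝓝 (0 : ℝ) :=
    (isOpen_interior.preimage hφ).mem_nhds h0
  obtain ⟨ε, hε, h2⟩ := Metric.mem_nhds_iff.1 h1
  refine ⟨ε / 2, by positivity, fun t ht => interior_subset (h2 ?_)⟩
  rw [Metric.mem_ball, Real.dist_eq, sub_zero]
  linarith

theorem s_INT : S_INT := by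
  intro k A l a z hz
  constructor
  · intro i
    have hc : Continuous fun t : ℝ =>
        (⟨Function.update z.x i (z.x i + t), z.y, z.pos⟩ : Hyp (ZMod (k + 1))) := by
      apply cont_path (fun t => Function.update z.x i (z.x i + t)) (fun _ => z.y) (fun _ => z.pos)
      · exact continuous_const.update i (continuous_const.add continuous_id)
      · exact continuous_const
    obtain ⟨ε, hε, h⟩ := near (tile A l a) _ hc (by
      simp only [add_zero, Function.update_eq_self]
      exact hz)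
    have h1 := ((h (-ε) (by rw [abs_neg, abs_of_pos hε])).1 i).1
    have h2 := ((h ε (by rw [abs_of_pos hε])).1 i).2
    simp only [Function.update_self] at h1 h2
    constructor <;> linarith
  · have hc : Continuous fun t : ℝ =>
        (⟨z.x, z.y * Real.exp t, mul_pos z.pos (Real.exp_pos t)⟩ : Hyp (ZMod (k + 1))) := by
      apply cont_path (fun _ => z.x) (fun t => z.y * Real.exp t)
        (fun t => mul_pos z.pos (Real.exp_pos t)) continuous_const
      exact continuous_const.mul Real.continuous_exp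
    obtain ⟨ε, hε, h⟩ := near (tile A l a) _ hc (by
      simp only [Real.exp_zero, mul_one]
      exact hz)
    have h1 := (h (-ε) (by rw [abs_neg, abs_of_pos hε])).2.1
    have h2 := (h ε (by rw [abs_of_pos hε])).2.2
    simp only at h1 h2
    have hy := z.pos
    have e1 : Real.exp (-ε) < 1 := (Real.exp_lt_exp.2 (neg_lt_zero.2 hε)).trans_eq Real.exp_zero
    have e2 : 1 < Real.exp ε := Real.one_lt_exp_iff.2 hε
    have e3 : 0 < Real.exp (-ε) := Real.exp_pos _
    constructor
    · refine lt_of_le_of_lt h1 ?_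
      apply pow_lt_pow_left₀ _ (by positivity) (by norm_num)
      nlinarith
    · refine lt_of_lt_of_le ?_ h2
      apply pow_lt_pow_left₀ _ (by positivity) (by norm_num)
      nlinarith

theorem s_DIS : S_INT → S_GAP → S_DIS := by
  intro hI hG k A l l' a a' hne
  rw [Set.disjoint_left]
  intro z h1 h2
  obtain ⟨p1, p2, p3⟩ := hI k A l a z h1
  obtain ⟨q1, q2, q3⟩ := hI k A l' a' z h2
  have key : ∀ m m' : ℤ, GG A (m' - 1) z.x < z.y ^ 2 → z.y ^ 2 < GG A m z.x → ¬ m < m' := by
    intro m m' r1 r2 r3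
    rcases (show m ≤ m' - 1 by omega).lt_or_eq with r4 | r4
    · have := gg_lt hG A z.x r4
      linarith
    · rw [r4] at r2
      linarith
  obtain rfl : l = l' := le_antisymm (not_lt.1 (key _ _ p2 q3)) (not_lt.1 (key _ _ q2 p3))
  apply hne
  congr 1
  funext i
  obtain ⟨b1, b2⟩ := p1 i
  obtain ⟨c1, c2⟩ := q1 i
  have hs : 0 < sd A i l := by
    have := b1.trans b2
    nlinarith
  have d1 : (a i : ℝ) < a' i + 1 := lt_of_mul_lt_mul_right (b1.trans c2) hs.le
  have d2 : (a' i : ℝ) < a i + 1 := lt_of_mul_lt_mul_right (c1.trans b2) hs.le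
  have e1 : a i < a' i + 1 := by exact_mod_cast d1
  have e2 : a' i < a i + 1 := by exact_mod_cast d2
  omega

theorem s_COV : S_GAP → S_SD → S_COV := by
  intro hG hS k A z
  have hy : 0 < z.y ^ 2 := by
    have := z.pos
    positivity
  have hc : 0 < A.c := (hG k A 0).1
  have hl0 : 0 < A.lam := by linarith [A.one_lt]
  obtain ⟨l, h1, h2⟩ := Int.exists_least_of_bdd (P := fun l => z.y ^ 2 ≤ GG A l z.x) (by
    obtain ⟨n, hn⟩ := pow_unbounded_of_one_lt ((A.c + (k + 1)) / z.y ^ 2) A.one_lt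
    refine ⟨-(n : ℤ), fun l hl => ?_⟩
    by_contra hlt
    push Not at hlt
    have h3 := (hG k A (l + 1)).2.2.1 z.x
    rw [add_sub_cancel_right] at h3
    have h4 : A.lam ^ (2 * l) ≤ A.lam ^ (-(n : ℤ)) :=
      zpow_le_zpow_right₀ A.one_lt.le (by omega)
    rw [zpow_neg, zpow_natCast] at h4
    have h5 : (A.c + (k + 1)) * A.lam ^ (2 * l) ≤ (A.c + (k + 1)) * (A.lam ^ n)⁻¹ :=
      mul_le_mul_of_nonneg_left h4 (by positivity)
    have h6 : (A.c + (k + 1)) * (A.lam ^ n)⁻¹ < z.y ^ 2 := by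
      rw [← div_eq_mul_inv, div_lt_iff₀ (by positivity)]
      rw [div_lt_iff₀ hy] at hn
      linarith
    have h7 : z.y ^ 2 ≤ GG A l z.x := hl
    linarith [h3, h5, h6, h7, add_mul A.c ((k : ℝ) + 1) (A.lam ^ (2 * l))]) (by
    obtain ⟨n, hn⟩ := pow_unbounded_of_one_lt (z.y ^ 2 / A.c) A.one_lt
    refine ⟨(n : ℤ), ?_⟩
    have h3 := (hG k A n).2.1 z.x
    have h4 : A.lam ^ ((n : ℤ)) ≤ A.lam ^ (2 * (n : ℤ)) :=
      zpow_le_zpow_right₀ A.one_lt.le (by omega)
    rw [zpow_natCast] at h4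
    rw [div_lt_iff₀ hc] at hn
    have h5 : A.c * A.lam ^ n ≤ A.c * A.lam ^ (2 * (n : ℤ)) := mul_le_mul_of_nonneg_left h4 hc.le
    show z.y ^ 2 ≤ GG A n z.x
    linarith)
  refine ⟨l, fun i => ⌊z.x i / sd A i l⌋, fun i => ?_, ?_, h1⟩
  · have hs : 0 < sd A i l := (hS k A i l).1
    constructor
    · rw [← le_div_iff₀ hs]
      exact Int.floor_le _
    · rw [← div_le_iff₀ hs]
      exact (Int.lt_floor_add_one _).le
  · by_contra h3
    push Not at h3
    have := h2 (l - 1) h3.le
    omega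

/-- one summand of `GG` -/
theorem gf_le (hF : S_GF) (s x : ℝ) (hs : 0 < s) (b : ℤ) :
    (x - b * s) * ((b + 1) * s - x) ≤ s ^ 2 * gf (x / s) ∧
    (b * s ≤ x → x ≤ (b + 1) * s → s ^ 2 * gf (x / s) = (x - b * s) * ((b + 1) * s - x)) := by
  obtain ⟨-, -, h, -⟩ := hF
  obtain ⟨h1, h2⟩ := h (x / s) b
  have e : (x - b * s) * ((b + 1) * s - x) = s ^ 2 * ((x / s - b) * (b + 1 - x / s)) := by
    field_simp
  constructor
  · rw [e]
    exact mul_le_mul_of_nonneg_left h1 (by positivity)
  · intro h3 h4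
    rw [e, h2.2 ⟨?_, ?_⟩]
    · rw [le_div_iff₀ hs]
      exact h3
    · rw [div_le_iff₀ hs]
      exact h4

theorem s_EQT : S_SD → S_GF → S_EQT := by
  intro hS hF k A l a z
  unfold tile
  rw [Set.mem_ofPred_eq]
  have hs : ∀ i, 0 < sd A i l := fun i => (hS k A i l).1
  have hs' : ∀ i, 0 < sd A i (l - 1) := fun i => (hS k A i (l - 1)).1
  have htwo : ∀ i, i = ((l - 1 : ℤ) : ZMod (k + 1)) → sd A i l = 2 * sd A i (l - 1) := by
    intro i hi
    have := (hS k A i (l - 1)).2.2.1 hi
    rwa [sub_add_cancel] at this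
  have hone : ∀ i, i ≠ ((l - 1 : ℤ) : ZMod (k + 1)) → sd A i l = sd A i (l - 1) := by
    intro i hi
    have := (hS k A i (l - 1)).2.2.2.1 hi
    rwa [sub_add_cancel] at this
  refine and_congr_right fun hbox => ?_
  have htop : GG A l z.x = A.c * A.lam ^ (2 * l) +
      ∑ i, (z.x i - a i * sd A i l) * ((a i + 1) * sd A i l - z.x i) := by
    unfold GG
    congr 1
    exact Finset.sum_congr rfl fun i _ =>
      (gf_le hF (sd A i l) (z.x i) (hs i) (a i)).2 (hbox i).1 (hbox i).2
  rw [← htop, and_comm]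
  refine and_congr_right fun _ => ?_
  set i₀ : ZMod (k + 1) := ((l - 1 : ℤ) : ZMod (k + 1)) with hi₀
  constructor
  · intro h e
    refine le_trans ?_ h
    unfold GG
    exact add_le_add le_rfl (Finset.sum_le_sum fun i _ =>
      (gf_le hF (sd A i (l - 1)) (z.x i) (hs' i) _).1)
  · intro h
    obtain ⟨e, he⟩ : ∃ e : Fin 2, ∀ i, i = i₀ →
        ((2 * a i + (e : ℤ) : ℤ) : ℝ) * sd A i (l - 1) ≤ z.x i ∧
        z.x i ≤ (((2 * a i + (e : ℤ) : ℤ) : ℝ) + 1) * sd A i (l - 1) := by
      rcases le_total (z.x i₀) ((2 * a i₀ + 1) * sd A i₀ (l - 1)) with h1 | h1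
      · refine ⟨0, fun i hi => ?_⟩
        subst hi
        have h2 := (hbox i₀).1
        rw [htwo i₀ rfl] at h2
        push_cast
        constructor
        · simp only [Fin.val_zero, Nat.cast_zero, add_zero]
          linarith
        · simp only [Fin.val_zero, Nat.cast_zero, add_zero]
          exact h1
      · refine ⟨1, fun i hi => ?_⟩
        subst hi
        have h2 := (hbox i₀).2
        rw [htwo i₀ rfl] at h2
        push_cast
        constructor
        · simp only [Fin.val_one, Nat.cast_one]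
          exact h1
        · simp only [Fin.val_one, Nat.cast_one]
          linarith
    refine le_trans (le_of_eq ?_) (h e)
    unfold GG
    congr 1
    refine Finset.sum_congr rfl fun i _ => ?_
    apply (gf_le hF (sd A i (l - 1)) (z.x i) (hs' i) _).2
    · by_cases hi : i = i₀
      · rw [if_pos hi]
        exact (he i hi).1
      · rw [if_neg hi, ← hone i hi]
        exact (hbox i).1
    · by_cases hi : i = i₀
      · rw [if_pos hi]
        exact (he i hi).2
      · rw [if_neg hi, ← hone i hi]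
        exact (hbox i).2

end Pool.Agent.L7h15.CR
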